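import Pool.Agent.Helper71.JN.SheetA
import Pool.Agent.Helper53.SUBW.Rep

/-! Project JN, row GALX: the automorphisms of the concrete field. -/

set_option autoImplicit false

namespace Pool.Agent.Helper67.JN

open Filter Finset Pool.Agent.Helper70.SUB Pool.Agent.Helper77.SUBK Pool.Agent.Helper70.SUBL
  Pool.Agent.Helper70.SUBW Pool.Agent.Helper71.JN Pool.Agent.Helper53.SUBW

/-- an automorphism acting on classes of sequences -/
noncomputable def gal {M : Type} [Field M] [NumberField M] (φ : Ultrafilter ℕ) (τ : M ≃ₐ[ℚ] M) :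
    UP M φ ≃+* UP M φ where
  toFun g := Germ.map τ g
  invFun g := Germ.map τ.symm g
  left_inv g := by
    induction g using Germ.inductionOn with
    | _ z =>
      simp only [Germ.map_coe]
      exact congrArg _ (funext fun j => τ.symm_apply_apply (z j))
  right_inv g := by
    induction g using Germ.inductionOn with
    | _ z =>
      simp only [Germ.map_coe]
      exact congrArg _ (funext fun j => τ.apply_symm_apply (z j))
  map_mul' g h := by
    induction g, h using Germ.inductionOn₂ with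
    | _ z z' =>
      simp only [Germ.map_coe, ← Germ.coe_mul]
      exact congrArg _ (funext fun j => map_mul τ (z j) (z' j))
  map_add' g h := by
    induction g, h using Germ.inductionOn₂ with
    | _ z z' =>
      simp only [Germ.map_coe, ← Germ.coe_add]
      exact congrArg _ (funext fun j => map_add τ (z j) (z' j))

theorem gal_gm {M : Type} [Field M] [NumberField M] (φ : Ultrafilter ℕ) (τ : M ≃ₐ[ℚ] M)
    (z : ℕ → M) : gal φ τ (gm φ z) = gm φ (fun j => τ (z j)) := rfl

theorem gal_symm_gm {M : Type} [Field M] [NumberField M] (φ : Ultrafilter ℕ) (τ : M ≃ₐ[ℚ] M)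
    (z : ℕ → M) : (gal φ τ).symm (gm φ z) = gm φ (fun j => τ.symm (z j)) := rfl

theorem gal_mem {M : Type} [Field M] [NumberField M] {S : Finset ℕ} {P : PF S M}
    {φ : Ultrafilter ℕ} {X : ℕ → ℝ}
    (h : ∀ (z : ℕ → M) (σ : M ≃ₐ[ℚ] M), OS P φ X z → OS P φ X (fun j => σ (z j)))
    (τ : M ≃ₐ[ℚ] M) (g : UP M φ) (hg : g ∈ Om P φ X) : gal φ τ g ∈ Om P φ X := by
  have h1 : Om P φ X ≤ (Om P φ X).comap (gal φ τ : UP M φ →+* UP M φ) := by
    refine Subfield.closure_le.2 ?_
    rintro g ⟨z, hz, rfl⟩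
    refine Subfield.subset_closure ⟨fun j => τ (z j), h z τ hz, rfl⟩
  exact h1 hg

theorem gal_symm_mem {M : Type} [Field M] [NumberField M] {S : Finset ℕ} {P : PF S M}
    {φ : Ultrafilter ℕ} {X : ℕ → ℝ}
    (h : ∀ (z : ℕ → M) (σ : M ≃ₐ[ℚ] M), OS P φ X z → OS P φ X (fun j => σ (z j)))
    (τ : M ≃ₐ[ℚ] M) (g : UP M φ) (hg : g ∈ Om P φ X) : (gal φ τ).symm g ∈ Om P φ X := by
  have h1 : Om P φ X ≤ (Om P φ X).comap ((gal φ τ).symm : UP M φ →+* UP M φ) := by
    refine Subfield.closure_le.2 ?_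
    rintro g ⟨z, hz, rfl⟩
    refine Subfield.subset_closure ⟨fun j => τ.symm (z j), h z τ.symm hz, rfl⟩
  exact h1 hg

/-- the restriction to `Om` -/
noncomputable def galOm {M : Type} [Field M] [NumberField M] {S : Finset ℕ} {P : PF S M}
    {φ : Ultrafilter ℕ} {X : ℕ → ℝ}
    (h : ∀ (z : ℕ → M) (σ : M ≃ₐ[ℚ] M), OS P φ X z → OS P φ X (fun j => σ (z j)))
    (τ : M ≃ₐ[ℚ] M) : Om P φ X ≃+* Om P φ X where
  toFun g := ⟨gal φ τ g, gal_mem h τ g g.2⟩
  invFun g := ⟨(gal φ τ).symm g, gal_symm_mem h τ g g.2⟩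
  left_inv g := Subtype.ext ((gal φ τ).symm_apply_apply (g : UP M φ))
  right_inv g := Subtype.ext ((gal φ τ).apply_symm_apply (g : UP M φ))
  map_mul' g h := Subtype.ext (map_mul (gal φ τ) (g : UP M φ) (h : UP M φ))
  map_add' g h := Subtype.ext (map_add (gal φ τ) (g : UP M φ) (h : UP M φ))

theorem galOm_coe {M : Type} [Field M] [NumberField M] {S : Finset ℕ} {P : PF S M}
    {φ : Ultrafilter ℕ} {X : ℕ → ℝ}
    (h : ∀ (z : ℕ → M) (σ : M ≃ₐ[ℚ] M), OS P φ X z → OS P φ X (fun j => σ (z j)))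
    (τ : M ≃ₐ[ℚ] M) (g : Om P φ X) : ((galOm h τ g : Om P φ X) : UP M φ) = gal φ τ g := rfl

/-- two nonnegative numbers with the same upper bounds of the form `exp a` -/
theorem eq_of_exp {x y : ℝ} (hx : 0 ≤ x) (hy : 0 ≤ y)
    (h : ∀ a : ℝ, x ≤ Real.exp a ↔ y ≤ Real.exp a) : x = y := by
  have key : ∀ {x y : ℝ}, 0 ≤ x → 0 ≤ y → (∀ a : ℝ, x ≤ Real.exp a ↔ y ≤ Real.exp a) → y ≤ x := by
    intro x y hx hy h
    rcases hx.eq_or_lt with h0 | h0
    · rcases hy.eq_or_lt with h1 | h1
      · rw [← h0, ← h1]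
      · exfalso
        have h2 := (h (Real.log y - 1)).1 (by rw [← h0]; exact (Real.exp_pos _).le)
        have h3 : Real.exp (Real.log y - 1) < y := by
          calc Real.exp (Real.log y - 1) < Real.exp (Real.log y) :=
                Real.exp_lt_exp.2 (by linarith)
            _ = y := Real.exp_log h1
        linarith
    · have h2 := (h (Real.log x)).1 (by rw [Real.exp_log h0])
      rwa [Real.exp_log h0] at h2
  exact le_antisymm (key hy hx fun a => (h a).symm) (key hx hy h)

theorem GALX (hOSR : ST_OSR) (hOMG : ST_OMG) (hSLW : ST_SLW) : ST_GALX := by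
  intro M _ _ _ S P φ X τ hS hX
  obtain ⟨-, -, -, -, -, hσ, -, -, -⟩ := hOSR M S P φ X hS hX
  obtain ⟨-, -, hSl, -, hSlw, -, hrep, -⟩ := hOMG M S P φ X hS hX
  obtain ⟨-, -, -, hslσ, -, -, -, -, -, -, -, -, -⟩ := hSLW M S P φ X hS hX
  refine ⟨galOm hσ τ, ?_, ?_⟩
  · intro g z hz
    rw [galOm_coe, ← hz, gal_gm]
  · intro r w D hw hD
    refine ⟨?_, ?_⟩
    · intro v σ g
      obtain ⟨z, hz⟩ := hrep (g : UP M φ)
      refine eq_of_exp ((D.nu _).nonneg _) ((D.nu _).nonneg _) fun a => ?_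
      have h1 := (hD.hN.2 (v, σ * τ) g z hz a).1
      have h2 := (hD.hN.2 (v, σ) (galOm hσ τ g) (fun j => τ (z j))
        (by rw [galOm_coe, ← hz, gal_gm]) a).1
      rw [h1, h2]
      exact Iff.rfl
    · intro hwτ z hz
      have hF : ∀ c : Sl P φ X, galOm hσ τ (algebraMap (Sl P φ X) (Om P φ X) c) ∈ D.K := by
        intro c
        obtain ⟨s, hs, hs'⟩ := (hSl (c : Om P φ X)).1 c.2
        have h3 : galOm hσ τ (c : Om P φ X) ∈ Sl P φ X := by
          refine (hSl _).2 ⟨fun j => τ (s j), hslσ s τ hs, ?_⟩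
          rw [galOm_coe, ← hs', gal_gm]
        exact D.K.algebraMap_mem (⟨galOm hσ τ (c : Om P φ X), h3⟩ : Sl P φ X)
      have hK : z ∈ IntermediateField.adjoin (Sl P φ X) (Set.range D.w) := hz
      induction hK using IntermediateField.adjoin_induction with
      | mem x hx =>
        obtain ⟨k, rfl⟩ := hx
        obtain ⟨s, m, hs, hsm⟩ := hwτ k
        have h4 : gm φ s ∈ Om P φ X := hSlw s hs
        have h5 : (⟨gm φ s, h4⟩ : Om P φ X) ∈ Sl P φ X := (hSl _).2 ⟨s, hs, rfl⟩
        have h6 : galOm hσ τ (D.w k) =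
            algebraMap (Sl P φ X) (Om P φ X) ⟨⟨gm φ s, h4⟩, h5⟩ * ∏ l, D.w l ^ m l := by
          refine Subtype.ext ?_
          rw [galOm_coe, hD.hw k, gal_gm, (gm_iff φ).2 hsm]
          have h7 : ((∏ l, D.w l ^ m l : Om P φ X) : UP M φ) = ∏ l, gm φ (w l) ^ m l := by
            have h8 : ((∏ l, D.w l ^ m l : Om P φ X) : UP M φ)
                = (Om P φ X).subtype (∏ l, D.w l ^ m l) := rfl
            rw [h8, map_prod]
            refine Finset.prod_congr rfl fun l _ => ?_
            rw [map_zpow₀, Subfield.subtype_apply, hD.hw l]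
          rw [Subfield.coe_mul, h7]
          have h9 := gm_monM φ w m
          unfold monM at h9
          rw [← h9]
          rfl
        rw [h6]
        refine D.K.mul_mem (D.K.algebraMap_mem _) (D.K.prod_mem fun l _ => ?_)
        have h10 : D.w l ∈ D.K :=
          IntermediateField.subset_adjoin (Sl P φ X) (Set.range D.w) (Set.mem_range_self l)
        exact zpow_mem h10 (m l)
      | algebraMap x => exact hF x
      | add x y hx hy hx' hy' =>
        rw [map_add]
        exact D.K.add_mem (hx' hx) (hy' hy)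
      | inv x hx hx' =>
        rw [map_inv₀]
        exact D.K.inv_mem (hx' hx)
      | mul x y hx hy hx' hy' =>
        rw [map_mul]
        exact D.K.mul_mem (hx' hx) (hy' hy)

end Pool.Agent.Helper67.JN
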